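import Mathlib

set_option autoImplicit false

namespace Pool.Agent.Results.MP_6ad575_co.Counter

/-- The cyclic subsemigroup `⟨x⟩ = {m x : m ≥ 1}`. -/
def cyc {S : Type} [AddCommMonoid S] (x : S) : Set S := {y | ∃ m : ℕ, 1 ≤ m ∧ y = m • x}

/-- The subsemigroup `C` is a group. -/
def IsGrp {S : Type} [AddCommMonoid S] (C : Set S) : Prop :=
  ∃ e ∈ C, (∀ y ∈ C, e + y = y) ∧ ∀ y ∈ C, ∃ z ∈ C, y + z = e

/-- The preorder `a ⪯ b`. -/
def Below {S : Type} [AddCommMonoid S] (a b : S) : Prop := a = b ∨ ∃ c, a = b + c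

theorem below_iff {S : Type} [AddCommMonoid S] {a b : S} : Below a b ↔ ∃ c, a = b + c :=
  ⟨fun h => h.elim (fun h => ⟨0, by simp [h]⟩) id, Or.inr⟩

/-- Green's congruence `𝓗`. -/
def Hcon (S : Type) [AddCommMonoid S] : AddCon S where
  r a b := Below a b ∧ Below b a
  iseqv := ⟨fun _ => ⟨Or.inl rfl, Or.inl rfl⟩, fun h => ⟨h.2, h.1⟩, fun h k => by
    simp only [below_iff] at *
    obtain ⟨⟨a, ha⟩, b, hb⟩ := h
    obtain ⟨⟨c, hc⟩, d, hd⟩ := k
    exact ⟨⟨c + a, by rw [← add_assoc, ← hc, ← ha]⟩, b + d, by rw [← add_assoc, ← hb, ← hd]⟩⟩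
  add' h k := by
    simp only [below_iff] at *
    obtain ⟨⟨a, ha⟩, b, hb⟩ := h
    obtain ⟨⟨c, hc⟩, d, hd⟩ := k
    exact ⟨⟨a + c, by rw [add_add_add_comm, ← ha, ← hc]⟩,
      b + d, by rw [add_add_add_comm, ← hb, ← hd]⟩

/-- An irreducible sequence over a commutative monoid. -/
def Irred {T : Type} [AddCommMonoid T] (s : Multiset T) : Prop := ∀ t < s, t.sum ≠ s.sum

@[ext] structure M where
  A : Set ℕ
  k : Fin 3

def ad (a b : Fin 3) : Fin 3 := ⟨min (a + b) 2, by omega⟩

instance : Add M := ⟨fun a b => ⟨a.A ∪ b.A, ad a.k b.k⟩⟩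
instance : Zero M := ⟨⟨∅, 0⟩⟩
@[simp] theorem add_A (a b : M) : (a + b).A = a.A ∪ b.A := rfl
@[simp] theorem add_k (a b : M) : (a + b).k = ad a.k b.k := rfl
@[simp] theorem zero_A : (0 : M).A = ∅ := rfl
@[simp] theorem zero_k : (0 : M).k = 0 := rfl

instance : AddCommMonoid M where
  add_assoc a b c := M.ext (Set.union_assoc ..)
    ((by decide : ∀ x y z, ad (ad x y) z = ad x (ad y z)) a.k b.k c.k)
  zero_add a := M.ext (Set.empty_union _) ((by decide : ∀ x, ad 0 x = x) _)
  add_zero a := M.ext (Set.union_empty _) ((by decide : ∀ x, ad x 0 = x) _)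
  add_comm a b := M.ext (Set.union_comm ..) ((by decide : ∀ x y, ad x y = ad y x) a.k b.k)
  nsmul := nsmulRec

theorem cyc_M {x y : M} (h : y ∈ cyc x) : y = x ∨ y = x + x := by
  obtain ⟨m, hm, rfl⟩ := h
  induction m, hm using Nat.le_induction with
  | base => simp
  | succ m _ ih =>
    right
    rw [succ_nsmul]
    rcases ih with h | h <;> rw [h]
    exact M.ext (by simp) ((by decide : ∀ x, ad (ad x x) x = ad x x) _)

theorem H_eq {a b : M} (h : Hcon M a b) : a = b := by
  obtain ⟨h1, h2⟩ := h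
  obtain ⟨c, hc⟩ := below_iff.1 h1
  obtain ⟨d, hd⟩ := below_iff.1 h2
  refine M.ext (Set.Subset.antisymm ?_ ?_) ?_
  · rw [hd]; simp
  · rw [hc]; simp
  · exact (by decide : ∀ x y z w, x = ad y z → y = ad x w → x = y) _ _ _ _
      (congrArg M.k hc) (congrArg M.k hd)

theorem mem_sum (t : Multiset M) (i : ℕ) : i ∈ t.sum.A ↔ ∃ x ∈ t, i ∈ x.A := by
  induction t using Multiset.induction_on with
  | empty => simp
  | cons a t ih => simp [ih]

/-- The negated form of Q1, for every nonzero commutative ring. -/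
theorem result : ∃ (S : Type) (_ : AddCommMonoid S), (∀ x : S, (cyc x).Finite) ∧
    (∀ (R : Type) [CommRing R] [Nontrivial R] (l : ℕ) (s e : Fin l → S),
      (∀ i, e i ∈ cyc (s i) ∧ e i + e i = e i) →
      (∀ a : Fin l → R, (∀ i, a i ≠ 0) → ∏ i, (AddMonoidAlgebra.single (s i) (1 : R) -
        AddMonoidAlgebra.single (e i) (a i) : AddMonoidAlgebra R S) ≠ 0) → l ≤ 1) ∧
    ∀ n : ℕ, ∃ a : S, ¬ IsGrp (cyc a) ∧ ∃ t : Multiset (Hcon S).Quotient,
      Irred t ∧ t.sum = (a : (Hcon S).Quotient) ∧ n ≤ Multiset.card t := by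
  refine ⟨M, inferInstance, fun x => (Set.toFinite {x, x + x}).subset fun y h => cyc_M h,
    fun R _ _ l s e he h => ?_, fun n => ?_⟩
  · by_contra hl
    obtain ⟨l, rfl⟩ : ∃ m, l = m + 2 := ⟨l - 2, by omega⟩
    apply h (fun _ => 1) (fun _ => one_ne_zero)
    have key : ∀ i, e i = s i ∨ ((e i).A = (s i).A ∧ (s i).k = 1 ∧ (e i).k = 2) := by
      intro i
      rcases cyc_M (he i).1 with h | h
      · exact Or.inl h
      · have h1 : (e i).A = (s i).A := by rw [h]; simp
        have h2 : (e i).k = ad (s i).k (s i).k := by rw [h]; rfl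
        rcases (by decide : ∀ x y, y = ad x x → y = x ∨ (x = 1 ∧ y = 2)) _ _ h2 with h | h
        · exact Or.inl (M.ext h1 h)
        · exact Or.inr ⟨h1, h⟩
    rw [Fin.prod_univ_succ, Fin.prod_univ_succ, ← mul_assoc]
    rcases key 0 with h0 | h0
    · simp [h0]
    rcases key (Fin.succ 0) with h1 | h1
    · simp only [h1]; simp
    have e1 : s 0 + s (Fin.succ 0) = e 0 + e (Fin.succ 0) :=
      M.ext (by simp only [add_A, h0.1, h1.1]) (by simp only [add_k, h0.2, h1.2]; decide)
    have e2 : s 0 + e (Fin.succ 0) = e 0 + e (Fin.succ 0) :=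
      M.ext (by simp only [add_A, h0.1, h1.1]) (by simp only [add_k, h0.2, h1.2]; decide)
    have e3 : e 0 + s (Fin.succ 0) = e 0 + e (Fin.succ 0) :=
      M.ext (by simp only [add_A, h0.1, h1.1]) (by simp only [add_k, h0.2, h1.2]; decide)
    rw [sub_mul, mul_sub, mul_sub]
    simp only [AddMonoidAlgebra.single_mul_single, e1, e2, e3, sub_self, zero_mul]
  · let f : ℕ → M := fun i => ⟨{i}, if i = 0 then 1 else 0⟩
    have hs : ∀ m, (((Finset.range (m + 1)).val.map f).sum).k = 1 := by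
      intro m
      induction m with
      | zero => simp [f]
      | succ m ih =>
        rw [Finset.range_add_one, Finset.insert_val_of_notMem (by simp), Multiset.map_cons,
          Multiset.sum_cons, add_k, ih]
        simp [f]; decide
    refine ⟨((Finset.range (n + 1)).val.map f).sum, ?_,
      ((Finset.range (n + 1)).val.map f).map (Hcon M).mk', ?_, ?_, by simp⟩
    · rintro ⟨e, he, h1, -⟩
      have h2 := congrArg M.k (h1 _ ⟨1, le_rfl, (one_nsmul _).symm⟩)
      rcases cyc_M he with h | h <;> rw [h] at h2 <;> simp only [add_k, hs] at h2 <;>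
        revert h2 <;> decide
    · intro t ht e
      obtain ⟨o, ho', ho⟩ : ∃ o : (Hcon M).Quotient → M, (∀ x, (Hcon M).mk' (o x) = x) ∧
          ∀ x : M, o ((Hcon M).mk' x) = x := ⟨Quotient.out, fun x => Quotient.out_eq x, fun x =>
        H_eq ((Hcon M).eq.1 (Quotient.out_eq _))⟩
      have h1 := Multiset.map_lt_map (f := o) ht
      rw [Multiset.map_map] at h1
      simp only [Function.comp_def, ho, Multiset.map_id'] at h1
      have h2 : (t.map o).sum = ((Finset.range (n + 1)).val.map f).sum := by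
        apply H_eq ((Hcon M).eq.1 _)
        change (Hcon M).mk' _ = (Hcon M).mk' _
        rw [map_multiset_sum, map_multiset_sum, ← e, Multiset.map_map]
        simp only [Function.comp_def, ho', Multiset.map_id']
      have hf : Function.Injective f := fun i j h => Set.singleton_injective (congrArg M.A h)
      refine h1.not_ge ((Multiset.le_iff_subset ((Finset.range _).nodup.map hf)).2 fun x hx => ?_)
      obtain ⟨i, hi, rfl⟩ := Multiset.mem_map.1 hx
      obtain ⟨y, hy, hi⟩ := (mem_sum (t.map o) i).1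
        (h2 ▸ (mem_sum _ i).2 ⟨_, hx, rfl⟩)
      obtain ⟨j, -, rfl⟩ := Multiset.mem_map.1 (Multiset.mem_of_le h1.le hy)
      rwa [show i = j from hi]
    · rw [← map_multiset_sum]; rfl

end Pool.Agent.Results.MP_6ad575_co.Counter
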